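import Pool.Agent.Y996.TL.Stm
import Pool.Agent.H492C.P1
import Pool.Agent.H492C.P2
import Pool.Agent.H988R2.Perc.T14

/-! Project TL, task A4: pair annihilation in the first group. -/

set_option autoImplicit false

namespace Pool.Agent.Y815.TL

open Pool.Agent.H988R2.Perc hiding X
open Pool.Agent.H492C
open Pool.Agent.Y996.TL
open Finset Polynomial

theorem pr3_smul_left (a r : ℕ) (c : ℂ) (f g : St →₀ ℂ) :
    pr3 a r (c • f) g = c * pr3 a r f g := by
  unfold pr3
  rw [Finsupp.mapDomain_smul, pairG_smul_left, pairG_smul_left, mul_sub]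

theorem act_ins0 (a : ℕ) (F : St →₀ ℂ) :
    Finsupp.mapDomain (St.act (a + 2)) (Finsupp.mapDomain (St.ins 0) F) =
      Finsupp.mapDomain (St.ins 0) (Finsupp.mapDomain (St.act a) F) := by
  rw [← Finsupp.mapDomain_comp, ← Finsupp.mapDomain_comp]
  congr 1
  funext R
  have := St.act_ins_left (i := a + 2) (j := 0) (by omega) R
  rw [Nat.add_sub_cancel] at this
  exact this

/-- one term -/
theorem term4 (a r k : ℕ) (ha : 1 ≤ a) (hr : 1 ≤ r) (hk : 1 ≤ k) (c : ℂ) (F G K W : St →₀ ℂ)
    (hG : Finsupp.mapDomain (St.act 0) G = c • Finsupp.mapDomain (St.ins 0) K) :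
    pairG (a + 2) (r + 2) (Finsupp.mapDomain (St.ins 0) F) (comb2 (k + 1) G W) =
      c * pairG a r F (comb2 k K W) := by
  have s1 : Finsupp.mapDomain (St.ins 0) F =
      Finsupp.mapDomain (St.act 0) (Finsupp.mapDomain (St.ins 0) F) := by
    rw [← Finsupp.mapDomain_comp]
    congr 1
    funext R
    exact (St.act_ins_self 0 R).symm
  rw [s1, pairG_act (by omega) (by omega), ← comb2_act_left (by omega), hG, comb2_smul_left,
    pairG_smul_right, comb2_ins_left]
  have u1 : St.up 0 a = a + 2 := by unfold St.up; split_ifs <;> omega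
  have u2 : St.up 0 r = r + 2 := by unfold St.up; split_ifs <;> omega
  rw [← u1, ← u2, pairG_ins (by decide)]

theorem a4 : S_A4 := by
  intro A B x hA hB hx _
  have hq0 := q_ne_zero
  have hq3 := q_cube
  obtain ⟨a, ha⟩ := hA
  obtain ⟨b, hb⟩ := hB
  have hpar : Even (([] : List ℂ).length + (A ++ 1 :: 1 :: 1 :: (B ++ [0])).length) := by
    simp only [List.length_nil, List.length_append, List.length_cons]
    exact ⟨a + b + 3, by omega⟩
  have hpar' : Even (([] : List ℂ).length + (A.map (fun x => x⁻¹) ++ [0]).length) := by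
    simp only [List.length_nil, List.length_map, List.length_append, List.length_cons]
    exact ⟨a + 1, by omega⟩
  set y' := (q^2 * x)⁻¹ with hy'
  have hy'0 : y' ≠ 0 := inv_ne_zero (mul_ne_zero (pow_ne_zero _ hq0) hx)
  have hxy : x⁻¹ = q^2 * y' := by
    rw [hy', mul_inv, ← mul_assoc, mul_inv_cancel₀ (pow_ne_zero _ hq0), one_mul]
  have r1 := Psi_rec [] (A ++ 1 :: 1 :: 1 :: (B ++ [0])) x hpar
  have r2 := Psi_rec [] (A.map (fun x => x⁻¹) ++ [0]) y' hpar'
  have e1 := Psi_exch [] (A.map (fun x => x⁻¹) ++ [0]) (q^2 * y') y' hpar'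
  set H := Psi ([] ++ (A ++ 1 :: 1 :: 1 :: (B ++ [0]))) with hH
  set K := Psi ([] ++ (A.map (fun x => x⁻¹) ++ [0])) with hK
  set G := Psi ([] ++ (q^2 * y') :: y' :: (A.map (fun x => x⁻¹) ++ [0])) with hG
  have hc1 : q * (q^2 * y') - q^2 * y' = (1 - q^2) * y' := by
    linear_combination y' * hq3
  have hc2 : q * y' - q^2 * (q^2 * y') = 0 := by
    linear_combination (-q * y') * hq3
  have hc3 : y' - q^2 * y' = (1 - q^2) * y' := by ring
  rw [hc1, hc2, hc3, zero_smul, zero_add] at e1
  have hne : (1 - q^2) * y' ≠ 0 :=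
    mul_ne_zero (sub_ne_zero.2 (Ne.symm q_sq_ne_one)) hy'0
  have e2 : Psi ([] ++ y' :: (q^2 * y') :: (A.map (fun x => x⁻¹) ++ [0])) =
      Finsupp.mapDomain (St.act 0) G := by
    have := congrArg (fun F => ((1 - q^2) * y')⁻¹ • F) e1
    simp only [smul_smul, inv_mul_cancel₀ hne, one_smul] at this
    exact this
  rw [e2] at r2
  have r1' : Psi ((x :: (q^2 * x) :: A) ++ 1 :: 1 :: 1 :: (B ++ [0])) =
      fac x (A ++ 1 :: 1 :: 1 :: (B ++ [0])) • Finsupp.mapDomain (St.ins 0) H := r1
  have t1 : up1 (x :: (q^2 * x) :: A) = G := by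
    rw [hG]
    unfold up1
    congr 1
    simp only [List.map_cons, List.nil_append, ← hxy, ← hy', List.cons_append]
  have r2' : Finsupp.mapDomain (St.act 0) G =
      fac y' (A.map (fun x => x⁻¹) ++ [0]) • Finsupp.mapDomain (St.ins 0) K := r2
  have hl : (x :: (q^2 * x) :: A).length = A.length + 2 := by
    simp only [List.length_cons]
  unfold GR3
  rw [r1', t1, pr3_smul_left, hl]
  have hk : (A.length + 2 + 3) / 2 = (A.length + 3) / 2 + 1 := by omega
  have hr : A.length + 2 + 3 + B.length = (A.length + 3 + B.length) + 2 := by omega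
  rw [hk, hr]
  unfold pr3
  rw [act_ins0, term4 A.length (A.length + 3 + B.length) ((A.length + 3) / 2) (by omega) (by omega)
    (by omega) _ _ _ K _ r2', term4 A.length (A.length + 3 + B.length) ((A.length + 3) / 2)
    (by omega) (by omega) (by omega) _ _ _ K _ r2']
  rw [← mul_sub, mul_assoc]
  rfl

end Pool.Agent.Y815.TL
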